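import Pool.Agent.W182.PW.Lin

/-! Regular windows for primes with almost prime companions: arbitrary finite families of polynomials, natural values
(helper364). -/

set_option autoImplicit false

namespace Pool.Agent.U364.RP

open Filter Polynomial

open Classical in
/-- every window around `n` of length between `K log ^ k n` and `n` contains the right number of the elements `G` -/
def Reg (G : ℕ → ℝ → ℕ → Prop) (k r : ℕ) (c₁ c₂ K : ℝ) (n : ℕ) : Prop :=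
  ∀ a b : ℕ, a ≤ n → n ≤ b → K * Real.log n ^ k ≤ (b : ℝ) - a → (b : ℝ) - a ≤ n →
    c₁ * ((b : ℝ) - a) / Real.log n ^ k ≤
      (((Finset.Ioc a b).filter (fun m => G r ((n : ℝ) ^ (1 / (r : ℝ))) m)).card : ℝ) ∧
    (((Finset.Ioc a b).filter (fun m => G r ((n : ℝ) ^ (1 / (r : ℝ))) m)).card : ℝ) ≤
      c₂ * ((b : ℝ) - a) / Real.log n ^ k

open Classical in
theorem win {ι : Type} [Fintype ι] (f : ι → ℤ[X])
    (hirr : ∀ i, Irreducible (f i)) (hdeg : ∀ i, 0 < (f i).natDegree)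
    (hlead : ∀ i, 0 < (f i).leadingCoeff) (hinj : Function.Injective f) (hX : ∀ i, f i ≠ X)
    (hadm : ∀ p : ℕ, p.Prime → ∃ m : ℕ, ¬ p ∣ m ∧ ∀ i, ¬ (p : ℤ) ∣ (f i).eval (m : ℤ))
    (V : ι → ℕ → ℕ) (hV : ∀ (i : ι) (m : ℕ), m.Prime → (f i).eval (m : ℤ) = (V i m : ℤ))
    (G : ℕ → ℝ → ℕ → Prop)
    (hG : ∀ (r : ℕ) (z : ℝ) (m : ℕ), G r z m ↔ m.Prime ∧ ∀ i, (V i m).primeFactorsList.length ≤ r ∧
      ∀ p : ℕ, p.Prime → p ∣ V i m → z < (p : ℝ)) (k : ℕ) (hk : Fintype.card ι + 1 = k) :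
    ∃ (r : ℕ) (c₁ c₂ K κ : ℝ), 0 < c₁ ∧ 0 < c₂ ∧ 0 < K ∧ 0 < κ ∧
    ∀ᶠ x : ℕ in atTop, κ * x ≤ (((Finset.Icc 1 x).filter (fun n => Reg G k r c₁ c₂ K n)).card : ℝ) := by
  subst hk
  have h := Pool.Agent.W182.PW.main f hirr hdeg hlead hinj hX hadm
  have e : Pool.Agent.W182.PW.PrimeAlmost f = G := by
    funext r z m
    apply propext
    rw [hG]
    unfold Pool.Agent.W182.PW.PrimeAlmost
    constructor
    · rintro ⟨h1, h2⟩
      refine ⟨h1, fun i => ?_⟩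
      have h3 := h2 i
      rw [hV i m h1, Int.natAbs_natCast] at h3
      exact ⟨h3.1, fun p hp hd => h3.2 p hp (Int.natCast_dvd_natCast.2 hd)⟩
    · rintro ⟨h1, h2⟩
      refine ⟨h1, fun i => ?_⟩
      have h3 := h2 i
      rw [hV i m h1, Int.natAbs_natCast]
      exact ⟨h3.1, fun p hp hd => h3.2 p hp (Int.natCast_dvd_natCast.1 hd)⟩
  have e2 : Pool.Agent.W182.PW.RegularP f (Fintype.card ι + 1) = Reg G (Fintype.card ι + 1) := by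
    funext r c₁ c₂ K n
    unfold Pool.Agent.W182.PW.RegularP Reg
    rw [e]
  rw [e2] at h
  exact h

open Classical in
/-- systems `a_i p + b_i` -/
theorem win_lin {ι : Type} [Fintype ι] (a : ι → ℕ) (b : ι → ℤ) (ha : ∀ i, 0 < a i)
    (hab : ∀ i, IsCoprime (a i : ℤ) (b i)) (hinj : ∀ i j, a i = a j → b i = b j → i = j)
    (hX : ∀ i, ¬ (a i = 1 ∧ b i = 0))
    (hadm : ∀ p : ℕ, p.Prime → ∃ m : ℕ, ¬ p ∣ m ∧ ∀ i, ¬ (p : ℤ) ∣ (a i : ℤ) * m + b i)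
    (V : ι → ℕ → ℕ) (hV : ∀ (i : ι) (m : ℕ), m.Prime → (a i : ℤ) * m + b i = (V i m : ℤ))
    (G : ℕ → ℝ → ℕ → Prop)
    (hG : ∀ (r : ℕ) (z : ℝ) (m : ℕ), G r z m ↔ m.Prime ∧ ∀ i, (V i m).primeFactorsList.length ≤ r ∧
      ∀ p : ℕ, p.Prime → p ∣ V i m → z < (p : ℝ)) (k : ℕ) (hk : Fintype.card ι + 1 = k) :
    ∃ (r : ℕ) (c₁ c₂ K κ : ℝ), 0 < c₁ ∧ 0 < c₂ ∧ 0 < K ∧ 0 < κ ∧
    ∀ᶠ x : ℕ in atTop, κ * x ≤ (((Finset.Icc 1 x).filter (fun n => Reg G k r c₁ c₂ K n)).card : ℝ) := by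
  refine win (fun i => Pool.Agent.W182.PW.lin (a i) (b i)) (fun i => Pool.Agent.W182.PW.lin_irr _ _ (ha i) (hab i))
    (fun i => Pool.Agent.W182.PW.lin_deg _ _ (ha i)) (fun i => Pool.Agent.W182.PW.lin_lead _ _ (ha i))
    (fun i j hij => hinj i j (Pool.Agent.W182.PW.lin_inj hij).1 (Pool.Agent.W182.PW.lin_inj hij).2)
    (fun i => Pool.Agent.W182.PW.lin_ne_X (hX i)) (fun p hp => ?_) V (fun i m hm => ?_) G hG k hk
  · obtain ⟨m, h1, h2⟩ := hadm p hp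
    refine ⟨m, h1, fun i => ?_⟩
    rw [Pool.Agent.W182.PW.lin_eval]
    exact h2 i
  · rw [Pool.Agent.W182.PW.lin_eval]
    exact hV i m hm

end Pool.Agent.U364.RP

namespace Pool.Agent.U364.RP

open Filter

open Classical in
/-- shifts -/
theorem win_shift (H : Finset ℕ) (h0 : 0 ∉ H)
    (hadm : ∀ p : ℕ, p.Prime → ∃ m : ℕ, ¬ p ∣ m ∧ ∀ h ∈ H, ¬ p ∣ m + h)
    (G : ℕ → ℝ → ℕ → Prop)
    (hG : ∀ (r : ℕ) (z : ℝ) (m : ℕ), G r z m ↔ m.Prime ∧ ∀ h ∈ H, (m + h).primeFactorsList.length ≤ r ∧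
      ∀ p : ℕ, p.Prime → p ∣ m + h → z < (p : ℝ)) (k : ℕ) (hk : H.card + 1 = k) :
    ∃ (r : ℕ) (c₁ c₂ K κ : ℝ), 0 < c₁ ∧ 0 < c₂ ∧ 0 < K ∧ 0 < κ ∧
    ∀ᶠ x : ℕ in atTop, κ * x ≤ (((Finset.Icc 1 x).filter (fun n => Reg G k r c₁ c₂ K n)).card : ℝ) := by
  refine win_lin (ι := {h // h ∈ H}) (fun _ => 1) (fun i => ((i : ℕ) : ℤ)) (fun _ => one_pos)
    (fun _ => isCoprime_one_left) (fun i j _ h => Subtype.ext (by exact_mod_cast h)) (fun i h => h0 ?_)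
    (fun p hp => ?_) (fun i m => m + (i : ℕ)) (fun i m _ => by push_cast; ring) G (fun r z m => ?_) k
    (by rw [Fintype.card_coe]; exact hk)
  · have h1 : (i : ℕ) = 0 := by exact_mod_cast h.2
    rw [← h1]
    exact i.2
  · obtain ⟨m, h1, h2⟩ := hadm p hp
    refine ⟨m, h1, fun i h => h2 i i.2 ?_⟩
    have h3 : (p : ℤ) ∣ ((m + (i : ℕ) : ℕ) : ℤ) := by
      push_cast
      push_cast at h
      rw [one_mul] at h
      exact h
    exact Int.natCast_dvd_natCast.1 h3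
  · rw [hG]
    constructor
    · rintro ⟨h1, h2⟩
      exact ⟨h1, fun i => h2 i i.2⟩
    · rintro ⟨h1, h2⟩
      exact ⟨h1, fun a ha => h2 ⟨a, ha⟩⟩

/-- admissibility from two coprime values -/
theorem adm_shift (H : Finset ℕ) (u v : ℕ) (huv : Nat.Coprime (u * ∏ h ∈ H, (u + h)) (v * ∏ h ∈ H, (v + h)))
    (p : ℕ) (hp : p.Prime) : ∃ m : ℕ, ¬ p ∣ m ∧ ∀ h ∈ H, ¬ p ∣ m + h := by
  by_cases hu : p ∣ u * ∏ h ∈ H, (u + h)
  · have hv : ¬ p ∣ v * ∏ h ∈ H, (v + h) := fun hv => by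
      have := Nat.dvd_gcd hu hv
      rw [huv] at this
      exact hp.one_lt.ne' (Nat.dvd_one.1 this)
    exact ⟨v, fun h => hv (h.mul_right _), fun h hh hd =>
      hv ((hd.trans (Finset.dvd_prod_of_mem (fun h => v + h) hh)).mul_left _)⟩
  · exact ⟨u, fun h => hu (h.mul_right _), fun h hh hd =>
      hu ((hd.trans (Finset.dvd_prod_of_mem (fun h => u + h) hh)).mul_left _)⟩

end Pool.Agent.U364.RP
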