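import Pool.Agent.U364.RP.Nb
import Pool.Agent.TH977.PW.Inst

/-! Regular points and neighbours for systems of polynomials with natural values (helper364). -/

set_option autoImplicit false

namespace Pool.Agent.U364.RP

open Filter Polynomial

theorem small_lt (r m p : ℕ) (hm : m ≤ 1) (hp : p.Prime) : (m : ℝ) ^ (1 / (r : ℝ)) < (p : ℝ) := by
  have h1 : (1 : ℝ) < p := by exact_mod_cast hp.one_lt
  have h2 : (m : ℝ) ^ (1 / (r : ℝ)) ≤ 1 :=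
    Real.rpow_le_one (Nat.cast_nonneg m) (by exact_mod_cast hm) (by positivity)
  linarith

/-- a prime divisor of a prime value `v ≥ m` is larger than `m ^ (1 / r)` -/
theorem rough_of_prime (r m v p : ℕ) (hr : 2 ≤ r) (hv : v.Prime) (hle : m ≤ v) (hp : p.Prime) (hd : p ∣ v) :
    (m : ℝ) ^ (1 / (r : ℝ)) < (p : ℝ) := by
  rcases Nat.lt_or_ge m 2 with h | h
  · exact small_lt r m p (by omega) hp
  · rw [(Nat.prime_dvd_prime_iff_eq hp hv).1 hd]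
    exact Pool.Agent.TH977.PW.rpow_lt_of_le r m v hr h hle

/-- integer arguments -/
theorem gen {ι : Type} [Fintype ι] [Nonempty ι] (f : ι → ℤ[X]) (hf : Pool.Agent.W123.RU.Poly.Sys f) (V : ι → ℕ → ℕ)
    (hV : ∀ (i : ι) (m : ℕ), (f i).eval (m : ℤ) = (V i m : ℤ) ∨ (m ≤ 1 ∧ V i m = 0)) (Sol : Set ℕ) (R Al : ℕ → Set ℕ)
    (hR : ∀ r m : ℕ, m ∈ R r → ∀ i, ∀ p : ℕ, p.Prime → p ∣ V i m → (m : ℝ) ^ (1 / (r : ℝ)) < (p : ℝ))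
    (hAl : ∀ r m : ℕ, (∀ i, ∀ p : ℕ, p.Prime → p ∣ V i m → (m : ℝ) ^ (1 / (r : ℝ)) < (p : ℝ)) →
      (∀ i, (V i m).primeFactorsList.length ≤ r) → m ∈ Al r)
    (hSol : ∀ r : ℕ, 2 ≤ r → Sol ⊆ R r)
    (k : ℕ) (hk : Fintype.card ι = k) (θ : ℝ) (hθ : 0 < θ) (hθ1 : θ ≤ 1) :
    (∃ r₀ : ℕ, 2 ≤ r₀ ∧ ∀ r : ℕ, r₀ ≤ r → Sol ⊆ R r ∧
      (∃ κ : ℝ, 0 < κ ∧ ∀ᶠ X : ℕ in atTop, ∀ Y : ℕ, (X : ℝ) ^ θ ≤ Y → Y ≤ X →
        κ * Y / Real.log X ^ k ≤ N (Al r) X (X + Y)) ∧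
      ∀ ε : ℝ, 0 < ε → ∃ c : ℝ, 0 < c ∧ ∀ δ : ℝ, 0 < δ → ∃ B : ℕ,
        ∀ᶠ X : ℕ in atTop, ∀ Y : ℕ, (X : ℝ) ^ θ ≤ Y → 2 * Y ≤ X → ∀ A : Set ℕ, A ⊆ R r →
          (N {m | m ∈ A ∧ m ∉ Regular A k c δ B X Y} X (X + Y) : ℝ) ≤ ε * Y / Real.log X ^ k) ∧
    ∀ κ ε : ℝ, 0 < κ → 0 < ε → ∃ c C : ℝ, 0 < c ∧ 0 < C ∧ ∀ δ : ℝ, 0 < δ → ∃ B : ℕ,
      ∀ᶠ X : ℕ in atTop, ∀ Y : ℕ, (X : ℝ) ^ θ ≤ Y → 2 * Y ≤ X → ∀ P : Set ℕ, P ⊆ Sol →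
        κ * Y / Real.log X ^ k ≤ N P X (X + Y) →
        (1 - ε) * N P X (X + Y) ≤ N (Near P k c C δ B X Y) X (X + Y) := by
  refine full Sol R Al k θ hθ hSol (Pool.Agent.TH977.PW.final f hf R Al k hk (fun r m _ hm => ?_)
    (fun r m _ h1 h2 => ?_) θ hθ hθ1)
  · intro i p hp hd
    rcases hV i m with h | ⟨h, -⟩
    · rw [h] at hd
      exact hR r m hm i p hp (Int.natCast_dvd_natCast.1 hd)
    · exact small_lt r m p h hp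
  · apply hAl
    · intro i p hp hd
      rcases hV i m with h | ⟨h, -⟩
      · apply h1 i p hp
        rw [h]
        exact Int.natCast_dvd_natCast.2 hd
      · exact small_lt r m p h hp
    · intro i
      rcases hV i m with h | ⟨-, h⟩
      · have h3 := h2 i
        rw [h, Int.natAbs_natCast] at h3
        exact h3
      · rw [h, Nat.primeFactorsList_zero]
        exact Nat.zero_le _

/-- prime arguments -/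
theorem genp {ι : Type} [Fintype ι] (f : ι → ℤ[X])
    (hirr : ∀ i, Irreducible (f i)) (hdeg : ∀ i, 0 < (f i).natDegree)
    (hlead : ∀ i, 0 < (f i).leadingCoeff) (hinj : Function.Injective f) (hX : ∀ i, f i ≠ X)
    (hadm : ∀ p : ℕ, p.Prime → ∃ m : ℕ, ¬ p ∣ m ∧ ∀ i, ¬ (p : ℤ) ∣ (f i).eval (m : ℤ)) (V : ι → ℕ → ℕ)
    (hV : ∀ (i : ι) (m : ℕ), (f i).eval (m : ℤ) = (V i m : ℤ) ∨ (m ≤ 1 ∧ V i m = 0)) (Sol : Set ℕ) (R Al : ℕ → Set ℕ)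
    (hR : ∀ r m : ℕ, m ∈ R r → (∀ p : ℕ, p.Prime → p ∣ m → (m : ℝ) ^ (1 / (r : ℝ)) < (p : ℝ)) ∧
      ∀ i, ∀ p : ℕ, p.Prime → p ∣ V i m → (m : ℝ) ^ (1 / (r : ℝ)) < (p : ℝ))
    (hAl : ∀ r m : ℕ, 2 ≤ r → m.Prime → (∀ i, ∀ p : ℕ, p.Prime → p ∣ V i m → (m : ℝ) ^ (1 / (r : ℝ)) < (p : ℝ)) →
      (∀ i, (V i m).primeFactorsList.length ≤ r) → m ∈ Al r)
    (hSol : ∀ r : ℕ, 2 ≤ r → Sol ⊆ R r)
    (k : ℕ) (hk : Fintype.card ι + 1 = k) (θ : ℝ) (hθ : 0 < θ) (hθ1 : θ ≤ 1) :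
    (∃ r₀ : ℕ, 2 ≤ r₀ ∧ ∀ r : ℕ, r₀ ≤ r → Sol ⊆ R r ∧
      (∃ κ : ℝ, 0 < κ ∧ ∀ᶠ X : ℕ in atTop, κ * X / Real.log X ^ k ≤ N (Al r) X (2 * X)) ∧
      ∀ ε : ℝ, 0 < ε → ∃ c : ℝ, 0 < c ∧ ∀ δ : ℝ, 0 < δ → ∃ B : ℕ,
        ∀ᶠ X : ℕ in atTop, ∀ Y : ℕ, (X : ℝ) ^ θ ≤ Y → 2 * Y ≤ X → ∀ A : Set ℕ, A ⊆ R r →
          (N {m | m ∈ A ∧ m ∉ Regular A k c δ B X Y} X (X + Y) : ℝ) ≤ ε * Y / Real.log X ^ k) ∧
    ∀ κ ε : ℝ, 0 < κ → 0 < ε → ∃ c C : ℝ, 0 < c ∧ 0 < C ∧ ∀ δ : ℝ, 0 < δ → ∃ B : ℕ,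
      ∀ᶠ X : ℕ in atTop, ∀ Y : ℕ, (X : ℝ) ^ θ ≤ Y → 2 * Y ≤ X → ∀ P : Set ℕ, P ⊆ Sol →
        κ * Y / Real.log X ^ k ≤ N P X (X + Y) →
        (1 - ε) * N P X (X + Y) ≤ N (Near P k c C δ B X Y) X (X + Y) := by
  refine full_prime Sol R Al k θ hθ hSol (Pool.Agent.TH977.PW.final_prime f hirr hdeg hlead hinj hX hadm R Al k hk
    (fun r m _ hm => ⟨(hR r m hm).1, ?_⟩) (fun r m h2r h0 h1 h2 => ?_) θ hθ hθ1)
  · intro i p hp hd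
    rcases hV i m with h | ⟨h, -⟩
    · rw [h] at hd
      exact (hR r m hm).2 i p hp (Int.natCast_dvd_natCast.1 hd)
    · exact small_lt r m p h hp
  · apply hAl r m h2r h0
    · intro i p hp hd
      rcases hV i m with h | ⟨h, -⟩
      · apply h1 i p hp
        rw [h]
        exact Int.natCast_dvd_natCast.2 hd
      · exact small_lt r m p h hp
    · intro i
      rcases hV i m with h | ⟨-, h⟩
      · have h3 := h2 i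
        rw [h, Int.natAbs_natCast] at h3
        exact h3
      · rw [h, Nat.primeFactorsList_zero]
        exact Nat.zero_le _

/-- one quadratic polynomial -/
theorem sys_quad (a b c : ℤ) (ha : 0 < a) (u v : ℕ)
    (huv : IsCoprime (a * (u : ℤ) ^ 2 + b * u + c) (a * (v : ℤ) ^ 2 + b * v + c))
    (hD : ¬ IsSquare (b ^ 2 - 4 * a * c)) :
    Pool.Agent.W123.RU.Poly.Sys (fun _ : Fin 1 => Pool.Agent.TH464.PW.quad a b c) := by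
  have key : ∀ p : ℕ, p.Prime → ¬ ((p : ℤ) ∣ a * (u : ℤ) ^ 2 + b * u + c ∧ (p : ℤ) ∣ a * (v : ℤ) ^ 2 + b * v + c) :=
    fun p hp h => (Nat.prime_iff_prime_int.1 hp).not_isUnit (huv.isUnit_of_dvd' h.1 h.2)
  have hg : ∀ p : ℕ, p.Prime → ¬ ((p : ℤ) ∣ a ∧ (p : ℤ) ∣ b ∧ (p : ℤ) ∣ c) := by
    rintro p hp ⟨h1, h2, h3⟩
    exact key p hp ⟨dvd_add (dvd_add (h1.mul_right _) (h2.mul_right _)) h3,
      dvd_add (dvd_add (h1.mul_right _) (h2.mul_right _)) h3⟩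
  refine ⟨fun _ => Pool.Agent.TH464.PW.quad_irr a b c ha.ne' hg hD,
    fun _ => by rw [Pool.Agent.TH464.PW.quad_deg a b c ha.ne']; norm_num,
    fun _ => by rw [Pool.Agent.TH464.PW.quad_lead a b c ha.ne']; exact ha,
    fun _ _ _ => Subsingleton.elim _ _, fun p hp => ?_⟩
  by_cases h : (p : ℤ) ∣ a * (u : ℤ) ^ 2 + b * u + c
  · refine ⟨v, fun _ hd => key p hp ⟨h, ?_⟩⟩
    rw [Pool.Agent.TH464.PW.quad_eval] at hd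
    exact hd
  · refine ⟨u, fun _ hd => h ?_⟩
    rw [Pool.Agent.TH464.PW.quad_eval] at hd
    exact hd

end Pool.Agent.U364.RP
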