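import Pool.Agent.TH977.PW.Inst

/-! Regular points of arbitrary sets of rough arguments: definitions and conversion (helper364). -/

set_option autoImplicit false

namespace Pool.Agent.U364.RP

open Filter

/-- The number of the elements of `A` in `(a, b]`. -/
noncomputable def N (A : Set ℕ) (a b : ℕ) : ℕ := (A ∩ Set.Ioc a b).ncard

/-- All intervals `(m - s, m + t]` with `s, t ≤ Y` and `s + t ≥ log ^ e X / c` contain the right order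
`(s + t) / log ^ e X` of elements of `A`, up to the factors `c` and `1 / c`. -/
def RightOrder (A : Set ℕ) (e : ℕ) (c : ℝ) (X Y m : ℕ) : Prop :=
  ∀ s t : ℕ, s ≤ Y → t ≤ Y → Real.log X ^ e ≤ c * (s + t) →
    c * (s + t) / Real.log X ^ e ≤ N A (m - s) (m + t) ∧
      (N A (m - s) (m + t) : ℝ) ≤ (s + t) / (c * Real.log X ^ e)

/-- Up to `δ`, `A` has a constant density on both sides of `m` up to the distance `2 ^ n`. -/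
def ConstantDensity (A : Set ℕ) (e : ℕ) (c δ : ℝ) (X m n : ℕ) : Prop :=
  ∃ lam : ℝ, c ≤ lam ∧ lam ≤ 1 / c ∧ ∀ s t : ℕ, s ≤ 2 ^ n → t ≤ 2 ^ n →
    |(N A (m - s) (m + t) : ℝ) - lam * (s + t) / Real.log X ^ e| ≤ δ * 2 ^ n / Real.log X ^ e

/-- The number of the scales `log ^ e X ≤ 2 ^ n ≤ Y` without this property. -/
noncomputable def badScales (A : Set ℕ) (e : ℕ) (c δ : ℝ) (X Y m : ℕ) : ℕ :=
  {n : ℕ | Real.log X ^ e ≤ (2 : ℝ) ^ n ∧ 2 ^ n ≤ Y ∧ ¬ ConstantDensity A e c δ X m n}.ncard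

/-- The elements of `A` that are regular points of `A`. -/
def Regular (A : Set ℕ) (e : ℕ) (c δ : ℝ) (B X Y : ℕ) : Set ℕ :=
  {m | m ∈ A ∧ RightOrder A e c X Y m ∧ badScales A e c δ X Y m ≤ B}

lemma N_eq (A : Set ℕ) (a b : ℕ) : Pool.Agent.TH977.PW.N A a b = N A a b := by
  classical
  unfold Pool.Agent.TH977.PW.N N
  rw [← Set.ncard_coe_finset]
  congr 1
  ext m
  simp only [Finset.coe_filter, Finset.mem_Ioc, Set.mem_inter_iff, Set.mem_Ioc, Set.mem_ofPred_eq]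
  tauto

lemma right_iff (A : Set ℕ) (e : ℕ) (c : ℝ) (X Y m : ℕ) :
    Pool.Agent.TH977.PW.RightOrder A e c X Y m ↔ RightOrder A e c X Y m := by
  unfold Pool.Agent.TH977.PW.RightOrder RightOrder
  simp only [N_eq]

lemma const_iff (A : Set ℕ) (e : ℕ) (c δ : ℝ) (X m j : ℕ) :
    Pool.Agent.TH977.PW.ConstantDensity A e c δ X m j ↔ ConstantDensity A e c δ X m j := by
  unfold Pool.Agent.TH977.PW.ConstantDensity ConstantDensity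
  simp only [N_eq]

lemma bad_eq (A : Set ℕ) (e : ℕ) (c δ : ℝ) (X Y m : ℕ) (hY : 1 ≤ Y) :
    Pool.Agent.TH977.PW.badScales A e c δ X Y m = badScales A e c δ X Y m := by
  classical
  unfold Pool.Agent.TH977.PW.badScales badScales
  rw [← Set.ncard_coe_finset]
  congr 1
  ext j
  simp only [Finset.coe_filter, Finset.mem_range, Set.mem_ofPred_eq, const_iff]
  have h : j < Nat.log 2 Y + 1 ↔ 2 ^ j ≤ Y := by
    rw [Nat.lt_succ_iff]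
    exact (Nat.le_log_iff_pow_le (by norm_num) (by omega))
  rw [h]
  tauto

lemma N_mono (A B : Set ℕ) (a b : ℕ) (h : A ⊆ B) : N A a b ≤ N B a b := by
  unfold N
  exact Set.ncard_le_ncard (Set.inter_subset_inter_left _ h)
    ((Set.finite_Ioc a b).subset Set.inter_subset_right)

/-- the irregular elements are few, in the definitions above -/
theorem irr (R : Set ℕ) (k : ℕ) (c ε δ θ : ℝ) (hθ : 0 < θ) (B : ℕ)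
    (h : ∀ᶠ X : ℕ in atTop, ∀ Y : ℕ, (X : ℝ) ^ θ ≤ Y → 2 * Y ≤ X → ∀ A : Set ℕ, A ⊆ R →
      (Pool.Agent.TH977.PW.N (Pool.Agent.TH977.PW.Irregular A k c δ B X Y) X (X + Y) : ℝ) ≤ ε * Y / Real.log X ^ k) :
    ∀ᶠ X : ℕ in atTop, ∀ Y : ℕ, (X : ℝ) ^ θ ≤ Y → 2 * Y ≤ X → ∀ A : Set ℕ, A ⊆ R →
      (N {m | m ∈ A ∧ m ∉ Regular A k c δ B X Y} X (X + Y) : ℝ) ≤ ε * Y / Real.log X ^ k := by
  filter_upwards [h, eventually_ge_atTop 1] with X hX hX1 Y hY hYX A hA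
  have hY1 : 1 ≤ Y := by
    have h3 : (1 : ℝ) ≤ (X : ℝ) ^ θ := Real.one_le_rpow (by exact_mod_cast hX1) hθ.le
    exact_mod_cast h3.trans hY
  have h4 := hX Y hY hYX A hA
  rw [N_eq] at h4
  refine le_trans ?_ h4
  have h5 : {m | m ∈ A ∧ m ∉ Regular A k c δ B X Y} ⊆ Pool.Agent.TH977.PW.Irregular A k c δ B X Y := by
    rintro m ⟨hm, hn⟩
    refine ⟨hm, fun hcon => hn ⟨hm, (right_iff _ _ _ _ _ _).1 hcon.1, ?_⟩⟩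
    rw [← bad_eq A k c δ X Y m hY1]
    exact hcon.2
  exact_mod_cast N_mono _ _ _ _ h5

/-- **The regular points**, integer arguments: conversion of the conclusion of `TH977.PW.final`. -/
theorem conv (R Al : ℕ → Set ℕ) (k : ℕ) (θ : ℝ) (hθ : 0 < θ)
    (h : ∃ r0 : ℕ, 2 ≤ r0 ∧ ∀ r : ℕ, r0 ≤ r →
    (∃ κ : ℝ, 0 < κ ∧ ∀ᶠ X : ℕ in atTop, ∀ Y : ℕ, (X : ℝ) ^ θ ≤ Y → Y ≤ X →
      κ * Y / Real.log X ^ k ≤ Pool.Agent.TH977.PW.N (Al r) X (X + Y)) ∧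
    ∀ ε : ℝ, 0 < ε → ∃ c : ℝ, 0 < c ∧ ∀ δ : ℝ, 0 < δ → ∃ B : ℕ,
      ∀ᶠ X : ℕ in atTop, ∀ Y : ℕ, (X : ℝ) ^ θ ≤ Y → 2 * Y ≤ X →
        ∀ A : Set ℕ, A ⊆ R r →
        (Pool.Agent.TH977.PW.N (Pool.Agent.TH977.PW.Irregular A k c δ B X Y) X (X + Y) : ℝ) ≤
          ε * Y / Real.log X ^ k) :
    ∃ r0 : ℕ, 2 ≤ r0 ∧ ∀ r : ℕ, r0 ≤ r →
    (∃ κ : ℝ, 0 < κ ∧ ∀ᶠ X : ℕ in atTop, ∀ Y : ℕ, (X : ℝ) ^ θ ≤ Y → Y ≤ X →
      κ * Y / Real.log X ^ k ≤ N (Al r) X (X + Y)) ∧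
    ∀ ε : ℝ, 0 < ε → ∃ c : ℝ, 0 < c ∧ ∀ δ : ℝ, 0 < δ → ∃ B : ℕ,
      ∀ᶠ X : ℕ in atTop, ∀ Y : ℕ, (X : ℝ) ^ θ ≤ Y → 2 * Y ≤ X →
        ∀ A : Set ℕ, A ⊆ R r →
        (N {m | m ∈ A ∧ m ∉ Regular A k c δ B X Y} X (X + Y) : ℝ) ≤ ε * Y / Real.log X ^ k := by
  obtain ⟨r0, hr0, h⟩ := h
  refine ⟨r0, hr0, fun r hr => ⟨?_, ?_⟩⟩
  · obtain ⟨κ, hκ, h1⟩ := (h r hr).1
    refine ⟨κ, hκ, ?_⟩
    filter_upwards [h1] with X hX Y hXY hYX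
    have := hX Y hXY hYX
    rw [N_eq] at this
    exact this
  · intro ε hε
    obtain ⟨c, hc, h2⟩ := (h r hr).2 ε hε
    refine ⟨c, hc, fun δ hδ => ?_⟩
    obtain ⟨B, h3⟩ := h2 δ hδ
    exact ⟨B, irr (R r) k c ε δ θ hθ B h3⟩

/-- **The regular points**, prime arguments: conversion of the conclusion of `TH977.PW.final_prime`. -/
theorem conv_prime (R Al : ℕ → Set ℕ) (k : ℕ) (θ : ℝ) (hθ : 0 < θ)
    (h : ∃ r0 : ℕ, 2 ≤ r0 ∧ ∀ r : ℕ, r0 ≤ r →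
    (∃ κ : ℝ, 0 < κ ∧ ∀ᶠ X : ℕ in atTop, κ * X / Real.log X ^ k ≤ Pool.Agent.TH977.PW.N (Al r) X (2 * X)) ∧
    ∀ ε : ℝ, 0 < ε → ∃ c : ℝ, 0 < c ∧ ∀ δ : ℝ, 0 < δ → ∃ B : ℕ,
      ∀ᶠ X : ℕ in atTop, ∀ Y : ℕ, (X : ℝ) ^ θ ≤ Y → 2 * Y ≤ X →
        ∀ A : Set ℕ, A ⊆ R r →
        (Pool.Agent.TH977.PW.N (Pool.Agent.TH977.PW.Irregular A k c δ B X Y) X (X + Y) : ℝ) ≤
          ε * Y / Real.log X ^ k) :
    ∃ r0 : ℕ, 2 ≤ r0 ∧ ∀ r : ℕ, r0 ≤ r →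
    (∃ κ : ℝ, 0 < κ ∧ ∀ᶠ X : ℕ in atTop, κ * X / Real.log X ^ k ≤ N (Al r) X (2 * X)) ∧
    ∀ ε : ℝ, 0 < ε → ∃ c : ℝ, 0 < c ∧ ∀ δ : ℝ, 0 < δ → ∃ B : ℕ,
      ∀ᶠ X : ℕ in atTop, ∀ Y : ℕ, (X : ℝ) ^ θ ≤ Y → 2 * Y ≤ X →
        ∀ A : Set ℕ, A ⊆ R r →
        (N {m | m ∈ A ∧ m ∉ Regular A k c δ B X Y} X (X + Y) : ℝ) ≤ ε * Y / Real.log X ^ k := by
  obtain ⟨r0, hr0, h⟩ := h
  refine ⟨r0, hr0, fun r hr => ⟨?_, ?_⟩⟩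
  · obtain ⟨κ, hκ, h1⟩ := (h r hr).1
    refine ⟨κ, hκ, ?_⟩
    filter_upwards [h1] with X hX
    rw [N_eq] at hX
    exact hX
  · intro ε hε
    obtain ⟨c, hc, h2⟩ := (h r hr).2 ε hε
    refine ⟨c, hc, fun δ hδ => ?_⟩
    obtain ⟨B, h3⟩ := h2 δ hδ
    exact ⟨B, irr (R r) k c ε δ θ hθ B h3⟩

end Pool.Agent.U364.RP
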