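import Pool.Agent.U364.RP.Gen

/-! Regular points and neighbours (helper364). -/

set_option autoImplicit false

namespace Pool.Agent.U364.RP

open Filter

lemma N_add_le (A B C : Set ℕ) (a b : ℕ) (h : A ⊆ B ∪ C) : N A a b ≤ N B a b + N C a b := by
  unfold N
  refine (Set.ncard_le_ncard ?_ (Set.Finite.union
    ((Set.finite_Ioc a b).subset Set.inter_subset_right)
    ((Set.finite_Ioc a b).subset Set.inter_subset_right))).trans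
    (Set.ncard_union_le (B ∩ Set.Ioc a b) (C ∩ Set.Ioc a b))
  intro m hm
  rcases h hm.1 with h1 | h1
  · exact Or.inl ⟨h1, hm.2⟩
  · exact Or.inr ⟨h1, hm.2⟩

lemma exists_of_N (A : Set ℕ) (a b : ℕ) (h : 1 ≤ N A a b) : ∃ m ∈ A, a < m ∧ m ≤ b := by
  unfold N at h
  obtain ⟨m, hm⟩ := (Set.ncard_pos ((Set.finite_Ioc a b).subset Set.inter_subset_right)).1
    (Nat.lt_of_lt_of_le Nat.zero_lt_one h)
  exact ⟨m, hm.1, hm.2.1, hm.2.2⟩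

lemma exists_two (A : Set ℕ) (a b : ℕ) (h : 2 ≤ N A a b) : ∃ m ∈ A, a < m ∧ m < b := by
  unfold N at h
  have hfin : (A ∩ Set.Ioc a b).Finite := (Set.finite_Ioc a b).subset Set.inter_subset_right
  obtain ⟨m, hm, hne⟩ := Set.exists_ne_of_one_lt_ncard (Nat.lt_of_lt_of_le Nat.one_lt_two h) b
  exact ⟨m, hm.1, hm.2.1, lt_of_le_of_ne hm.2.2 hne⟩

/-- the elements of `P` which are regular points of `P` and have neighbours on both sides -/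
def Near (P : Set ℕ) (k : ℕ) (c C δ : ℝ) (B X Y : ℕ) : Set ℕ :=
  {p | p ∈ Regular P k c δ B X Y ∧
    (∃ p₁ ∈ P, p₁ < p ∧ (p : ℝ) - p₁ ≤ C * Real.log X ^ k) ∧
    ∃ p₂ ∈ P, p < p₂ ∧ (p₂ : ℝ) - p ≤ C * Real.log X ^ k}

/-- **Neighbours**: most elements of a subset `P` of `R` of the right order are regular points of `P` with
neighbours on both sides at the average distance. -/
theorem nbrs (R : Set ℕ) (k : ℕ) (θ : ℝ) (hθ : 0 < θ)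
    (h : ∀ ε : ℝ, 0 < ε → ∃ c : ℝ, 0 < c ∧ ∀ δ : ℝ, 0 < δ → ∃ B : ℕ,
      ∀ᶠ X : ℕ in atTop, ∀ Y : ℕ, (X : ℝ) ^ θ ≤ Y → 2 * Y ≤ X → ∀ A : Set ℕ, A ⊆ R →
        (N {m | m ∈ A ∧ m ∉ Regular A k c δ B X Y} X (X + Y) : ℝ) ≤ ε * Y / Real.log X ^ k) :
    ∀ κ ε : ℝ, 0 < κ → 0 < ε → ∃ c C : ℝ, 0 < c ∧ 0 < C ∧ ∀ δ : ℝ, 0 < δ → ∃ B : ℕ,
      ∀ᶠ X : ℕ in atTop, ∀ Y : ℕ, (X : ℝ) ^ θ ≤ Y → 2 * Y ≤ X → ∀ P : Set ℕ, P ⊆ R →
          κ * Y / Real.log X ^ k ≤ N P X (X + Y) →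
          (1 - ε) * N P X (X + Y) ≤ N (Near P k c C δ B X Y) X (X + Y) := by
  intro κ ε hκ hε
  obtain ⟨c, hc, h1⟩ := h (ε * κ) (by positivity)
  refine ⟨c, 2 / c + 1, hc, by positivity, fun δ hδ => ?_⟩
  obtain ⟨B, h2⟩ := h1 δ hδ
  refine ⟨B, ?_⟩
  have hlog : ∀ᶠ X : ℕ in atTop, (2 / c + 1) * Real.log X ^ k ≤ (X : ℝ) ^ θ := by
    have h3 := (isLittleO_log_rpow_rpow_atTop (k : ℝ) hθ).bound
      (show (0 : ℝ) < 1 / (2 / c + 1) by positivity)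
    have h4 := (tendsto_natCast_atTop_atTop (R := ℝ)).eventually h3
    filter_upwards [h4, eventually_ge_atTop 1] with X hX hX1
    have hX1' : (1 : ℝ) ≤ X := by exact_mod_cast hX1
    have hl : 0 ≤ Real.log X := Real.log_nonneg hX1'
    have he : Real.log (X : ℝ) ^ (k : ℝ) = Real.log X ^ k := Real.rpow_natCast _ _
    rw [Real.norm_of_nonneg (by positivity), Real.norm_of_nonneg (by positivity), he,
      one_div, inv_mul_eq_div, le_div_iff₀ (by positivity)] at hX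
    linarith
  filter_upwards [h2, hlog, eventually_ge_atTop 3] with X hX hXl hX3 Y hY hYX P hPR hN
  have hX3' : (3 : ℝ) ≤ X := by exact_mod_cast hX3
  have hl1' : 1 ≤ Real.log X := by
    rw [Real.le_log_iff_exp_le (by linarith)]
    linarith [Real.exp_one_lt_d9]
  obtain ⟨L, hL⟩ : ∃ L : ℝ, L = Real.log X ^ k := ⟨_, rfl⟩
  have hl1 : 1 ≤ L := by rw [hL]; exact one_le_pow₀ hl1'
  have hl0 : 0 < L := by linarith
  have h5 := hX Y hY hYX P hPR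
  rw [← hL] at h5 hXl hN
  have hYR : (0 : ℝ) ≤ Y := Nat.cast_nonneg Y
  have h6 : (N {m | m ∈ P ∧ m ∉ Regular P k c δ B X Y} X (X + Y) : ℝ) ≤ ε * N P X (X + Y) := by
    refine h5.trans ?_
    have h7 : ε * κ * Y / L = ε * (κ * Y / L) := by ring
    rw [h7]
    exact mul_le_mul_of_nonneg_left hN hε.le
  have hceil : ∀ x : ℝ, 0 ≤ x → x ≤ 2 / c * L → ∃ T : ℕ, x ≤ T ∧ T ≤ Y ∧
      (T : ℝ) ≤ (2 / c + 1) * L := by
    intro x hx0 hx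
    refine ⟨⌈x⌉₊, Nat.le_ceil x, ?_, ?_⟩
    · have h8 : (⌈x⌉₊ : ℝ) < x + 1 := Nat.ceil_lt_add_one hx0
      have h9 : (⌈x⌉₊ : ℝ) ≤ Y := by
        have : x + 1 ≤ (2 / c + 1) * L := by
          rw [add_mul, one_mul]
          linarith
        linarith
      exact_mod_cast h9
    · have h8 : (⌈x⌉₊ : ℝ) < x + 1 := Nat.ceil_lt_add_one hx0
      rw [add_mul, one_mul]
      linarith
  have h10 : P ⊆ Near P k c (2 / c + 1) δ B X Y ∪ {m | m ∈ P ∧ m ∉ Regular P k c δ B X Y} := by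
    intro m hm
    by_cases hreg : m ∈ Regular P k c δ B X Y
    · left
      refine ⟨hreg, ?_, ?_⟩
      · obtain ⟨S, hS1, hS2, hS3⟩ := hceil (2 / c * L) (by positivity) le_rfl
        have h11 : 2 * L ≤ c * S := by
          have := mul_le_mul_of_nonneg_left hS1 hc.le
          rw [← mul_assoc, mul_div_cancel₀ _ hc.ne'] at this
          exact this
        have h12 := (hreg.2.1 S 0 hS2 (Nat.zero_le _) (by rw [← hL]; push_cast; linarith)).1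
        rw [← hL, Nat.cast_zero, add_zero, div_le_iff₀ hl0] at h12
        have h13 : (2 : ℝ) ≤ N P (m - S) (m + 0) := by
          by_contra hcon
          rw [not_le] at hcon
          nlinarith
        obtain ⟨m₁, h14, h15, h16⟩ := exists_two P (m - S) (m + 0) (by exact_mod_cast h13)
        refine ⟨m₁, h14, by omega, ?_⟩
        have h17 : m ≤ m₁ + S := by omega
        have h18 : (m : ℝ) ≤ m₁ + S := by exact_mod_cast h17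
        rw [← hL]
        linarith
      · obtain ⟨T, hT1, hT2, hT3⟩ := hceil (1 / c * L) (by positivity) (by
          have : 1 / c * L ≤ 2 / c * L := by
            apply mul_le_mul_of_nonneg_right _ hl0.le
            exact div_le_div_of_nonneg_right (by norm_num) hc.le
          exact this)
        have h11 : L ≤ c * T := by
          have := mul_le_mul_of_nonneg_left hT1 hc.le
          rw [← mul_assoc, mul_div_cancel₀ _ hc.ne', one_mul] at this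
          exact this
        have h12 := (hreg.2.1 0 T (Nat.zero_le _) hT2 (by rw [← hL]; push_cast; linarith)).1
        rw [← hL, Nat.cast_zero, zero_add, div_le_iff₀ hl0] at h12
        have h13 : (1 : ℝ) ≤ N P (m - 0) (m + T) := by
          by_contra hcon
          rw [not_le] at hcon
          nlinarith
        obtain ⟨m₂, h14, h15, h16⟩ := exists_of_N P (m - 0) (m + T) (by exact_mod_cast h13)
        refine ⟨m₂, h14, by omega, ?_⟩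
        have h18 : (m₂ : ℝ) ≤ m + T := by exact_mod_cast h16
        rw [← hL]
        linarith
    · right
      exact ⟨hm, hreg⟩
  have h19 := N_add_le _ _ _ X (X + Y) h10
  have h20 : (N P X (X + Y) : ℝ) ≤ N (Near P k c (2 / c + 1) δ B X Y) X (X + Y) +
      N {m | m ∈ P ∧ m ∉ Regular P k c δ B X Y} X (X + Y) := by exact_mod_cast h19
  linarith

/-- the whole statement, integer arguments -/
theorem full (Sol : Set ℕ) (R Al : ℕ → Set ℕ) (k : ℕ) (θ : ℝ) (hθ : 0 < θ)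
    (hSol : ∀ r : ℕ, 2 ≤ r → Sol ⊆ R r)
    (h : ∃ r0 : ℕ, 2 ≤ r0 ∧ ∀ r : ℕ, r0 ≤ r →
    (∃ κ : ℝ, 0 < κ ∧ ∀ᶠ X : ℕ in atTop, ∀ Y : ℕ, (X : ℝ) ^ θ ≤ Y → Y ≤ X →
      κ * Y / Real.log X ^ k ≤ Pool.Agent.TH977.PW.N (Al r) X (X + Y)) ∧
    ∀ ε : ℝ, 0 < ε → ∃ c : ℝ, 0 < c ∧ ∀ δ : ℝ, 0 < δ → ∃ B : ℕ,
      ∀ᶠ X : ℕ in atTop, ∀ Y : ℕ, (X : ℝ) ^ θ ≤ Y → 2 * Y ≤ X →
        ∀ A : Set ℕ, A ⊆ R r →
        (Pool.Agent.TH977.PW.N (Pool.Agent.TH977.PW.Irregular A k c δ B X Y) X (X + Y) : ℝ) ≤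
          ε * Y / Real.log X ^ k) :
    (∃ r₀ : ℕ, 2 ≤ r₀ ∧ ∀ r : ℕ, r₀ ≤ r → Sol ⊆ R r ∧
      (∃ κ : ℝ, 0 < κ ∧ ∀ᶠ X : ℕ in atTop, ∀ Y : ℕ, (X : ℝ) ^ θ ≤ Y → Y ≤ X →
        κ * Y / Real.log X ^ k ≤ N (Al r) X (X + Y)) ∧
      ∀ ε : ℝ, 0 < ε → ∃ c : ℝ, 0 < c ∧ ∀ δ : ℝ, 0 < δ → ∃ B : ℕ,
        ∀ᶠ X : ℕ in atTop, ∀ Y : ℕ, (X : ℝ) ^ θ ≤ Y → 2 * Y ≤ X → ∀ A : Set ℕ, A ⊆ R r →
          (N {m | m ∈ A ∧ m ∉ Regular A k c δ B X Y} X (X + Y) : ℝ) ≤ ε * Y / Real.log X ^ k) ∧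
    ∀ κ ε : ℝ, 0 < κ → 0 < ε → ∃ c C : ℝ, 0 < c ∧ 0 < C ∧ ∀ δ : ℝ, 0 < δ → ∃ B : ℕ,
      ∀ᶠ X : ℕ in atTop, ∀ Y : ℕ, (X : ℝ) ^ θ ≤ Y → 2 * Y ≤ X → ∀ P : Set ℕ, P ⊆ Sol →
        κ * Y / Real.log X ^ k ≤ N P X (X + Y) →
        (1 - ε) * N P X (X + Y) ≤ N (Near P k c C δ B X Y) X (X + Y) := by
  obtain ⟨r0, hr0, h1⟩ := conv R Al k θ hθ h
  refine ⟨⟨r0, hr0, fun r hr => ⟨hSol r (hr0.trans hr), h1 r hr⟩⟩, ?_⟩
  intro κ ε hκ hε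
  obtain ⟨c, C, hc, hC, h2⟩ := nbrs (R r0) k θ hθ (h1 r0 le_rfl).2 κ ε hκ hε
  refine ⟨c, C, hc, hC, fun δ hδ => ?_⟩
  obtain ⟨B, h3⟩ := h2 δ hδ
  refine ⟨B, ?_⟩
  filter_upwards [h3] with X hX Y hY hYX P hP hN
  exact hX Y hY hYX P (hP.trans (hSol r0 hr0)) hN

/-- the whole statement, prime arguments -/
theorem full_prime (Sol : Set ℕ) (R Al : ℕ → Set ℕ) (k : ℕ) (θ : ℝ) (hθ : 0 < θ)
    (hSol : ∀ r : ℕ, 2 ≤ r → Sol ⊆ R r)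
    (h : ∃ r0 : ℕ, 2 ≤ r0 ∧ ∀ r : ℕ, r0 ≤ r →
    (∃ κ : ℝ, 0 < κ ∧ ∀ᶠ X : ℕ in atTop, κ * X / Real.log X ^ k ≤ Pool.Agent.TH977.PW.N (Al r) X (2 * X)) ∧
    ∀ ε : ℝ, 0 < ε → ∃ c : ℝ, 0 < c ∧ ∀ δ : ℝ, 0 < δ → ∃ B : ℕ,
      ∀ᶠ X : ℕ in atTop, ∀ Y : ℕ, (X : ℝ) ^ θ ≤ Y → 2 * Y ≤ X →
        ∀ A : Set ℕ, A ⊆ R r →
        (Pool.Agent.TH977.PW.N (Pool.Agent.TH977.PW.Irregular A k c δ B X Y) X (X + Y) : ℝ) ≤
          ε * Y / Real.log X ^ k) :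
    (∃ r₀ : ℕ, 2 ≤ r₀ ∧ ∀ r : ℕ, r₀ ≤ r → Sol ⊆ R r ∧
      (∃ κ : ℝ, 0 < κ ∧ ∀ᶠ X : ℕ in atTop, κ * X / Real.log X ^ k ≤ N (Al r) X (2 * X)) ∧
      ∀ ε : ℝ, 0 < ε → ∃ c : ℝ, 0 < c ∧ ∀ δ : ℝ, 0 < δ → ∃ B : ℕ,
        ∀ᶠ X : ℕ in atTop, ∀ Y : ℕ, (X : ℝ) ^ θ ≤ Y → 2 * Y ≤ X → ∀ A : Set ℕ, A ⊆ R r →
          (N {m | m ∈ A ∧ m ∉ Regular A k c δ B X Y} X (X + Y) : ℝ) ≤ ε * Y / Real.log X ^ k) ∧
    ∀ κ ε : ℝ, 0 < κ → 0 < ε → ∃ c C : ℝ, 0 < c ∧ 0 < C ∧ ∀ δ : ℝ, 0 < δ → ∃ B : ℕ,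
      ∀ᶠ X : ℕ in atTop, ∀ Y : ℕ, (X : ℝ) ^ θ ≤ Y → 2 * Y ≤ X → ∀ P : Set ℕ, P ⊆ Sol →
        κ * Y / Real.log X ^ k ≤ N P X (X + Y) →
        (1 - ε) * N P X (X + Y) ≤ N (Near P k c C δ B X Y) X (X + Y) := by
  obtain ⟨r0, hr0, h1⟩ := conv_prime R Al k θ hθ h
  refine ⟨⟨r0, hr0, fun r hr => ⟨hSol r (hr0.trans hr), h1 r hr⟩⟩, ?_⟩
  intro κ ε hκ hε
  obtain ⟨c, C, hc, hC, h2⟩ := nbrs (R r0) k θ hθ (h1 r0 le_rfl).2 κ ε hκ hε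
  refine ⟨c, C, hc, hC, fun δ hδ => ?_⟩
  obtain ⟨B, h3⟩ := h2 δ hδ
  refine ⟨B, ?_⟩
  filter_upwards [h3] with X hX Y hY hYX P hP hN
  exact hX Y hY hYX P (hP.trans (hSol r0 hr0)) hN

end Pool.Agent.U364.RP
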